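import Pool.Agent.Run7.h932.RG.Stm2

/-! Project RG (helper932), piece DEG2 (helper216; adapted from the piece DEG of helper811). -/

set_option autoImplicit false

namespace Run7.h216.RG

open Finset Classical
open Run7.h932.RG

/-- adjacency -/
def adj {n : ℕ} (ω : Fin n → Fin n → Bool) (x y : Fin n) : Prop :=
  (x < y ∧ ω y x = true) ∨ (y < x ∧ ω x y = true)

lemma low_vertex {r n : ℕ} (ω : Fin n → Fin n → Bool) (X : Finset (Fin n))
    (h : 2 * eU ω X < r * X.card) : ∃ v ∈ X, (X.filter fun y => adj ω v y).card < r := by
  by_contra hcon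
  push Not at hcon
  set P := univ.filter fun z : Fin n × Fin n => z.1 ∈ X ∧ z.2 ∈ X ∧ z.1 < z.2 ∧ ω z.2 z.1 = true with hP
  have hPc : P.card = eU ω X := rfl
  set D := (X ×ˢ X).filter fun z : Fin n × Fin n => adj ω z.1 z.2 with hD
  have h1 : D ⊆ P ∪ P.image Prod.swap := by
    intro z hz
    rw [hD, mem_filter, mem_product] at hz
    rw [mem_union, mem_image]
    rcases hz.2 with h2 | h2
    · left
      rw [hP, mem_filter]
      exact ⟨mem_univ _, hz.1.1, hz.1.2, h2.1, h2.2⟩
    · right
      refine ⟨(z.2, z.1), ?_, rfl⟩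
      rw [hP, mem_filter]
      exact ⟨mem_univ _, hz.1.2, hz.1.1, h2.1, h2.2⟩
  have h2 : D.card ≤ 2 * P.card := by
    have h3 := (card_le_card h1).trans (card_union_le _ _)
    have h4 : (P.image Prod.swap).card ≤ P.card := card_image_le
    omega
  have h3 : D.card = ∑ x ∈ X, (X.filter fun y => adj ω x y).card := by
    rw [hD, card_filter, sum_product]
    apply sum_congr rfl
    intro x _
    rw [card_filter]
  have h4 : X.card * r ≤ ∑ x ∈ X, (X.filter fun y => adj ω x y).card := by
    rw [← smul_eq_mul]
    exact card_nsmul_le_sum _ _ _ hcon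
  rw [mul_comm] at h4
  omega

theorem t_DEG2 : S_DEG2 := by
  intro r n ω X hr
  induction X using Finset.strongInduction with
  | H X ih =>
    intro h
    rcases X.eq_empty_or_nonempty with h0 | h0
    · exact ⟨fun _ => ⟨0, hr⟩, fun x hx => by rw [h0] at hx; exact absurd hx (notMem_empty x)⟩
    · obtain ⟨v, hv, hdeg⟩ := low_vertex ω X (h X subset_rfl h0)
      obtain ⟨c, hc⟩ := ih (X.erase v) (erase_ssubset hv) (fun U hU => h U (hU.trans (erase_subset _ _)))
      have hex : ∃ a : Fin r, a ∉ (X.filter fun y => adj ω v y).image c := by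
        by_contra hcon
        push Not at hcon
        have h1 : (univ : Finset (Fin r)) ⊆ (X.filter fun y => adj ω v y).image c := fun a _ => hcon a
        have h2 := (card_le_card h1).trans card_image_le
        rw [card_univ, Fintype.card_fin] at h2
        omega
      obtain ⟨a, ha⟩ := hex
      refine ⟨Function.update c v a, ?_⟩
      intro x hx y hy hxy hw
      by_cases hxv : x = v
      · have hyv : y ≠ v := by rintro rfl; rw [hxv] at hxy; exact lt_irrefl _ hxy
        rw [hxv, Function.update_self, Function.update_of_ne hyv]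
        rintro rfl
        apply ha
        rw [mem_image]
        refine ⟨y, mem_filter.2 ⟨hy, ?_⟩, rfl⟩
        left
        rw [← hxv]
        exact ⟨hxy, hw⟩
      · by_cases hyv : y = v
        · rw [hyv, Function.update_self, Function.update_of_ne hxv]
          intro he
          apply ha
          rw [mem_image]
          refine ⟨x, mem_filter.2 ⟨hx, ?_⟩, he⟩
          right
          rw [← hyv]
          exact ⟨hxy, hw⟩
        · rw [Function.update_of_ne hxv, Function.update_of_ne hyv]
          exact hc x (mem_erase.2 ⟨hxv, hx⟩) y (mem_erase.2 ⟨hyv, hy⟩) hxy hw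

end Run7.h216.RG
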