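import Pool.Agent.Run7.h932.RG.Stm2

/-! Project RG (helper932), piece EXT2 (helper216; adapted from the piece EXT of helper811). -/

set_option autoImplicit false

namespace Run7.h216.RG

open Finset Classical
open Run7.h932.RG

theorem t_EXT2 : S_EXT2 := by
  intro r n k ω ω' X hω ⟨c, hc⟩
  set F : (Fin n → Fin k) → (Fin n → Fin (k + r)) := fun σ x =>
    if x ∈ X then Fin.natAdd k (c x) else Fin.castAdd r (σ x) with hF
  have hprop : ∀ σ ∈ cols k ω', F σ ∈ cols (k + r) ω := by
    intro σ hσ
    rw [cols, mem_filter] at hσ ⊢
    refine ⟨mem_univ _, ?_⟩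
    intro x y hxy hw
    rw [hF]
    dsimp only
    by_cases hx : x ∈ X <;> by_cases hy : y ∈ X
    · rw [if_pos hx, if_pos hy]
      intro he
      exact hc x hx y hy hxy hw (Fin.natAdd_injective r k he)
    · rw [if_pos hx, if_neg hy]
      intro he
      have := congrArg Fin.val he
      rw [Fin.val_natAdd, Fin.val_castAdd] at this
      have := (σ y).isLt
      omega
    · rw [if_neg hx, if_pos hy]
      intro he
      have := congrArg Fin.val he
      rw [Fin.val_natAdd, Fin.val_castAdd] at this
      have := (σ x).isLt
      omega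
    · rw [if_neg hx, if_neg hy]
      intro he
      rw [hω y hy] at hw
      exact hσ.2 x y hxy hw (Fin.castAdd_injective k r he)
  have h1 : (cols k ω').card ≤ ((univ : Finset (X → Fin k)) ×ˢ cols (k + r) ω).card := by
    apply card_le_card_of_injOn (fun σ => ((fun x : X => σ x.1), F σ))
    · intro σ hσ
      rw [mem_coe] at hσ
      rw [mem_coe, mem_product]
      exact ⟨mem_univ _, hprop σ hσ⟩
    · intro σ _ τ _ he
      simp only [Prod.mk.injEq] at he
      funext x
      by_cases hx : x ∈ X
      · exact congrFun he.1 ⟨x, hx⟩
      · have h2 := congrFun he.2 x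
        rw [hF] at h2
        dsimp only at h2
        rw [if_neg hx, if_neg hx] at h2
        exact Fin.castAdd_injective k r h2
  refine h1.trans (le_of_eq ?_)
  rw [card_product, card_univ, Fintype.card_fun, Fintype.card_fin, Fintype.card_coe]

end Run7.h216.RG
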