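import Pool.Agent.Run7.h932.RG.Stm2

/-! Project RG (helper932), piece HOST (helper216): from independent edges to subgraphs with `m` edges. -/

set_option autoImplicit false

namespace Run7.h216.RG

open Finset Classical
open Run7.h932.RG

/-- the pairs `x < y` which are edges -/
noncomputable def pr {n : ℕ} (G : SimpleGraph (Fin n)) : Finset (Fin n × Fin n) :=
  univ.filter fun z => z.1 < z.2 ∧ G.Adj z.1 z.2

lemma mem_pr {n : ℕ} (G : SimpleGraph (Fin n)) (z : Fin n × Fin n) : z ∈ pr G ↔ z.1 < z.2 ∧ G.Adj z.1 z.2 := by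
  unfold pr
  rw [mem_filter]
  exact ⟨fun h => h.2, fun h => ⟨mem_univ _, h⟩⟩

lemma card_pr {n : ℕ} (G : SimpleGraph (Fin n)) : (pr G).card = G.edgeSet.ncard := by
  rw [Set.ncard_eq_toFinset_card' G.edgeSet]
  refine Finset.card_bij (fun z _ => s(z.1, z.2)) ?_ ?_ ?_
  · intro z hz
    rw [mem_pr] at hz
    rw [Set.mem_toFinset, SimpleGraph.mem_edgeSet]
    exact hz.2
  · intro z hz z' hz' h
    rw [mem_pr] at hz hz'
    rw [Sym2.eq_iff] at h
    rcases h with h | h
    · exact Prod.ext h.1 h.2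
    · exfalso
      have h1 := hz.1
      have h2 := hz'.1
      rw [h.1, h.2] at h1
      exact lt_asymm h1 h2
  · intro e he
    rw [Set.mem_toFinset] at he
    induction e using Sym2.ind with
    | _ x y =>
      rw [SimpleGraph.mem_edgeSet] at he
      rcases lt_or_gt_of_ne he.ne with h | h
      · exact ⟨(x, y), (mem_pr _ _).2 ⟨h, he⟩, rfl⟩
      · exact ⟨(y, x), (mem_pr _ _).2 ⟨h, he.symm⟩, Sym2.eq_swap⟩

lemma pr_mono {n : ℕ} {G F : SimpleGraph (Fin n)} (h : G ≤ F) : pr G ⊆ pr F := by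
  intro z hz
  rw [mem_pr] at hz ⊢
  exact ⟨hz.1, h hz.2⟩

lemma WG_prod {n : ℕ} (p : Fin n → Fin n → ℝ) (G : SimpleGraph (Fin n)) : WG p G =
    ∏ z : Fin n × Fin n, if z.1 < z.2 then (if G.Adj z.1 z.2 then p z.1 z.2 else 1 - p z.1 z.2) else 1 := by
  unfold WG
  rw [Finset.prod_comm, Fintype.prod_prod_type]

lemma WG_eq {n : ℕ} {F G : SimpleGraph (Fin n)} (r : ℝ) (h : G ≤ F) :
    WG (fun x y => if F.Adj x y then r else 0) G =
      r ^ G.edgeSet.ncard * (1 - r) ^ (F.edgeSet.ncard - G.edgeSet.ncard) := by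
  rw [WG_prod, ← card_pr, ← card_pr, ← card_sdiff_of_subset (pr_mono h)]
  have e1 : ∀ z : Fin n × Fin n, (if z.1 < z.2 then (if G.Adj z.1 z.2 then (if F.Adj z.1 z.2 then r else 0)
      else 1 - (if F.Adj z.1 z.2 then r else 0)) else 1) =
      (if z ∈ pr G then r else 1) * (if z ∈ pr F \ pr G then 1 - r else 1) := by
    intro z
    simp only [mem_sdiff, mem_pr]
    by_cases h1 : z.1 < z.2
    · by_cases h2 : G.Adj z.1 z.2
      · have h3 : F.Adj z.1 z.2 := h h2
        simp [h1, h2, h3]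
      · by_cases h3 : F.Adj z.1 z.2
        · simp [h1, h2, h3]
        · simp [h1, h2, h3]
    · simp [h1]
  rw [Finset.prod_congr rfl fun z _ => e1 z, prod_mul_distrib, Finset.prod_ite_mem, Finset.prod_ite_mem,
    univ_inter, univ_inter, prod_const, prod_const]

lemma WG_nonneg {n : ℕ} (p : Fin n → Fin n → ℝ) (G : SimpleGraph (Fin n)) (h0 : ∀ x y, 0 ≤ p x y)
    (h1 : ∀ x y, p x y ≤ 1) : 0 ≤ WG p G := by
  unfold WG
  refine prod_nonneg fun y _ => prod_nonneg fun x _ => ?_
  split_ifs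
  · exact h0 x y
  · linarith [h1 x y]
  · exact zero_le_one

theorem t_HOST (hMODE : S_MODE) : S_HOST := by
  intro n F m P hm
  set e := F.edgeSet.ncard with he
  set r : ℝ := (m : ℝ) / e with hr
  have hr0 : 0 ≤ r := by positivity
  have hr1 : r ≤ 1 := div_le_one_of_le₀ (by exact_mod_cast hm) (by positivity)
  set T : Finset (SimpleGraph (Fin n)) := univ.filter fun G => P G ∧ G ≤ F ∧ G.edgeSet.ncard = m with hT
  have hS : ({E : Set (Sym2 (Fin n)) | E ⊆ F.edgeSet ∧ E.ncard = m ∧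
      P (SimpleGraph.fromEdgeSet E)}.ncard) ≤ T.card := by
    have h1 : {E : Set (Sym2 (Fin n)) | E ⊆ F.edgeSet ∧ E.ncard = m ∧ P (SimpleGraph.fromEdgeSet E)} ⊆
        SimpleGraph.edgeSet '' (T : Set (SimpleGraph (Fin n))) := by
      rintro E ⟨h1, h2, h3⟩
      have h4 : (SimpleGraph.fromEdgeSet E).edgeSet = E := by
        rw [SimpleGraph.edgeSet_fromEdgeSet]
        ext x
        rw [Set.mem_sdiff]
        refine ⟨fun h => h.1, fun h => ⟨h, fun h5 => ?_⟩⟩
        exact F.not_isDiag_of_mem_edgeSet (h1 h) h5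
      refine ⟨SimpleGraph.fromEdgeSet E, ?_, h4⟩
      rw [mem_coe, hT, mem_filter]
      refine ⟨mem_univ _, h3, ?_, ?_⟩
      · rw [← SimpleGraph.edgeSet_subset_edgeSet, h4]
        exact h1
      · rw [h4]
        exact h2
    refine (Set.ncard_le_ncard h1 (Set.toFinite _)).trans ?_
    refine (Set.ncard_image_le (Set.toFinite _)).trans ?_
    rw [Set.ncard_coe_finset]
  have hW : ∀ G ∈ T, WG (fun x y => if F.Adj x y then r else 0) G = r ^ m * (1 - r) ^ (e - m) := by
    intro G hG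
    rw [hT, mem_filter] at hG
    rw [WG_eq r hG.2.2.1, hG.2.2.2]
  have hsum : (T.card : ℝ) * (r ^ m * (1 - r) ^ (e - m)) ≤
      ∑ G ∈ univ.filter fun G => P G, WG (fun x y => if F.Adj x y then r else 0) G := by
    rw [← nsmul_eq_mul, ← Finset.sum_const, ← Finset.sum_congr rfl hW]
    refine Finset.sum_le_sum_of_subset_of_nonneg ?_ ?_
    · intro G hG
      rw [hT, mem_filter] at hG
      exact mem_filter.2 ⟨mem_univ _, hG.2.1⟩
    · intro G _ _
      refine WG_nonneg _ _ ?_ ?_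
      · intro x y
        split_ifs
        · exact hr0
        · exact le_rfl
      · intro x y
        split_ifs
        · exact hr1
        · exact zero_le_one
  have hM := hMODE e m hm
  calc ({E : Set (Sym2 (Fin n)) | E ⊆ F.edgeSet ∧ E.ncard = m ∧
        P (SimpleGraph.fromEdgeSet E)}.ncard : ℝ) ≤ T.card := by exact_mod_cast hS
    _ = (T.card : ℝ) * 1 := (mul_one _).symm
    _ ≤ (T.card : ℝ) * (((e : ℝ) + 1) * (e.choose m) * ((m : ℝ) / e) ^ m * (1 - (m : ℝ) / e) ^ (e - m)) :=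
        mul_le_mul_of_nonneg_left hM (Nat.cast_nonneg _)
    _ = ((e : ℝ) + 1) * (e.choose m) * ((T.card : ℝ) * (r ^ m * (1 - r) ^ (e - m))) := by
        rw [hr]
        ring
    _ ≤ ((e : ℝ) + 1) * (e.choose m) *
        ∑ G ∈ univ.filter fun G => P G, WG (fun x y => if F.Adj x y then r else 0) G :=
        mul_le_mul_of_nonneg_left hsum (by positivity)

end Run7.h216.RG
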